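import Pool.Agent.Helper41x.Gq.Fin

/-!
# The law for `q` points, all heights
-/

set_option autoImplicit false

namespace Pool.Agent.Helper41x.Gq

open NumberField IsDedekindDomain Finset Filter Topology Module Pool.Agent.H691R3
open Pool.Agent.W223.AK Pool.Agent.N906.KG
open Pool.Agent.TH876.KR (form counting localHeight)
open Pool.Agent.Y728 (PtsQ line_final)
open Pool.Agent.Y728.AK (ExcQ ExcQ_sub line_exc)

variable {K : Type} [Field K] [NumberField K]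

/-- heights up to `A Y` -/
theorem law_h {q : ℕ} (hq3 : 3 ≤ q) {κ₁ : ℝ} (hκ₁ : κ₁ ≤ 1) (h1 : S_UPU K q κ₁)
    {T : Set (Pr K)} (hT : T.Finite) {α : Fin q → Fin 2 → K}
    (hα : ∀ i j, i ≠ j → form (α i) (α j) ≠ 0) {M A : ℝ} (c : ℝ)
    (hM : 1 / (q : ℝ) < M) (hMA : M < A) (hA : A * (q - κ₁) < 1) :
    Tendsto (fun X : ℝ => (Real.log ((Vh T α M c (Real.log X) (A * Real.log X)).ncard : ℝ) -
      (1 - (q - 2) * M) * Real.log X) / √(Real.log X / Real.log (Real.log X)))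
      atTop (𝓝 √(8 * q * (q * M - 1))) := by
  refine lim_of hq3 hκ₁ h1 hT hα c hM hMA hA (fun Y => ((Vh T α M c Y (A * Y)).ncard : ℝ)) le_rfl ?_ ?_
  · exact Eventually.of_forall fun Y => by rw [zero_mul, add_zero]
  · filter_upwards [eventually_ge_atTop (0 : ℝ)] with Y hY
    have hsub : Vh T α M c Y (M * Y) ⊆ Vh T α M c Y (A * Y) := fun P hP =>
      ⟨hP.1, hP.2.trans (mul_le_mul_of_nonneg_right hMA.le hY)⟩
    exact_mod_cast Set.ncard_le_ncard hsub (Vh_finite T α M c Y (A * Y))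

theorem Vy_finite {q : ℕ} (hq3 : 3 ≤ q) {T : Set (Pr K)} (hT : T.Finite) {α : Fin q → Fin 2 → K}
    (hα : ∀ i j, i ≠ j → form (α i) (α j) ≠ 0) (M c Y : ℝ) : (Vy T α M c Y).Finite := by
  obtain ⟨C, hC⟩ := line_final K T hT q hq3 α hα 1 one_pos
  refine (hC (Real.exp (max Y 0)) (Real.one_le_exp (le_max_right _ _))).1.subset fun P hP => ?_
  exact ⟨P.rep, P.rep_nonzero, P.mk_rep.symm, hP.1,
    Real.exp_le_exp.2 (hP.2.1.trans (le_max_left _ _))⟩

/-- all heights -/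
theorem law_all {q : ℕ} (hq3 : 3 ≤ q) {T : Set (Pr K)} (hT : T.Finite) {α : Fin q → Fin 2 → K}
    (hα : ∀ i j, i ≠ j → form (α i) (α j) ≠ 0) : ∃ M₀ : ℝ, 1 / (q : ℝ) < M₀ ∧
    ∀ M c : ℝ, 1 / (q : ℝ) < M → M < M₀ →
    Tendsto (fun X : ℝ => (Real.log ((Vy T α M c (Real.log X)).ncard : ℝ) -
      (1 - (q - 2) * M) * Real.log X) / √(Real.log X / Real.log (Real.log X)))
      atTop (𝓝 √(8 * q * (q * M - 1))) := by
  have hq : (3 : ℝ) ≤ q := by exact_mod_cast hq3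
  have hq0 : (0 : ℝ) < q := by linarith
  have hq1 : (0 : ℝ) < q - 6 / 7 := by linarith
  have hlt : 1 / (q : ℝ) < 1 / (q - 6 / 7) := one_div_lt_one_div_of_lt hq1 (by linarith)
  obtain ⟨M₁, hM₁a, hM₁b⟩ := exists_between hlt
  have hM₁0 : 0 < M₁ := lt_trans (by positivity) hM₁a
  have hM₁c : M₁ * (q - 6 / 7) < 1 := by rwa [lt_div_iff₀ hq1] at hM₁b
  obtain ⟨ν, C, hν, hν2, hC, hexc⟩ := line_exc K T hT q hq3 α hα hM₁a
  have hq2 : (0 : ℝ) < q - 2 := by linarith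
  refine ⟨min M₁ (1 / q + ν / (q - 2)), lt_min hM₁a (by
    have : 0 < ν / (q - 2) := by positivity
    linarith), fun M c hM hMM => ?_⟩
  have hMa : M < M₁ := hMM.trans_le (min_le_left _ _)
  have hMb : M < 1 / q + ν / (q - 2) := hMM.trans_le (min_le_right _ _)
  refine lim_of hq3 (by norm_num) (upu_all K q (by omega)) hT hα c hM hMa hM₁c
    (fun Y => ((Vy T α M c Y).ncard : ℝ)) hC.le ?_ ?_
  · filter_upwards [eventually_ge_atTop (0 : ℝ)] with Y hY
    have hX : 1 ≤ Real.exp Y := Real.one_le_exp hY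
    have hfE : (ExcQ T α M₁ (Real.exp Y)).Finite := by
      obtain ⟨C', hC'⟩ := line_final K T hT q hq3 α hα 1 one_pos
      exact (hC' _ hX).1.subset (ExcQ_sub T α M₁ _)
    have hsub : Vy T α M c Y ⊆ Vh T α M c Y (M₁ * Y) ∪ ExcQ T α M₁ (Real.exp Y) := by
      intro P hP
      rcases le_or_gt (Height.logHeight P.rep) (M₁ * Y) with h | h
      · exact Or.inl ⟨hP, h⟩
      · exact Or.inr ⟨P.rep, P.rep_nonzero, P.mk_rep.symm, hP.1, Real.exp_le_exp.2 hP.2.1,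
          (mul_le_mul_of_nonneg_left hP.2.1 hM₁0.le).trans h.le⟩
    have h1 := Set.ncard_le_ncard hsub ((Vh_finite T α M c Y (M₁ * Y)).union hfE)
    have h2 := h1.trans (Set.ncard_union_le _ _)
    have h3 : ((Vy T α M c Y).ncard : ℝ) ≤ ((Vh T α M c Y (M₁ * Y)).ncard : ℝ) +
        ((ExcQ T α M₁ (Real.exp Y)).ncard : ℝ) := by exact_mod_cast h2
    have h4 := hexc _ hX
    have h5 : Real.exp Y ^ (2 / (q : ℝ) - ν) ≤ Real.exp ((1 - (q - 2) * M) * Y) := by
      rw [← Real.exp_mul, Real.exp_le_exp, mul_comm Y]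
      refine mul_le_mul_of_nonneg_right ?_ hY
      have h6 : (q - 2) * M ≤ (q - 2) * (1 / q + ν / (q - 2)) :=
        mul_le_mul_of_nonneg_left hMb.le hq2.le
      have h7 : (q - 2) * (1 / (q : ℝ) + ν / (q - 2)) = 1 - 2 / q + ν := by field_simp
      linarith
    have h6 := mul_le_mul_of_nonneg_left h5 hC.le
    linarith
  · filter_upwards [eventually_ge_atTop (0 : ℝ)] with Y hY
    have hsub : Vh T α M c Y (M * Y) ⊆ Vy T α M c Y := fun P hP => hP.1
    exact_mod_cast Set.ncard_le_ncard hsub (Vy_finite hq3 hT hα M c Y)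

end Pool.Agent.Helper41x.Gq
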