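import Pool.Agent.Helper41x.Gq.Mid
import Pool.Agent.N906.QP.All
import Pool.Agent.TH876.KR.Fin

/-!
# The counting function
-/

set_option autoImplicit false

namespace Pool.Agent.Helper41x.Gq

open NumberField IsDedekindDomain Finset Filter Topology Module Pool.Agent.H691R3
open Pool.Agent.W223.AK Pool.Agent.N906.KG
open Pool.Agent.N170.KG (pr al_pr pt pt_rep pt_inj pts pts_count ht_rep lv_eq fin_pos of_rep off_of)
open Pool.Agent.TH876.KR (form counting localHeight localHeight_nonneg)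

variable {K : Type} [Field K] [NumberField K]

theorem form_neg (a x : Fin 2 → K) : form a x = -(x 0 * a 1 - x 1 * a 0) := by
  unfold form
  ring

theorem lh_eq (v : HeightOneSpectrum (𝓞 K)) (a : Fin 2 → K) {P : Projectivization K (Fin 2 → K)}
    (h : P.rep 1 ≠ 0) :
    localHeight v a P.rep = lam (Sum.inr v : Pl K) (aff (P.rep 0 / P.rep 1)) (a 0, a 1) := by
  rw [← lv_eq v a h]
  unfold lv localHeight
  rw [div_mul_cancel₀ _ (fin_pos (K := K)).ne']
  have e : FinitePlace.mk v (form a P.rep) =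
      FinitePlace.mk v (P.rep 0 * a 1 - P.rep 1 * a 0) := by
    rw [form_neg]
    exact (FinitePlace.mk v).1.map_neg _
  rw [e, mul_comm (max (FinitePlace.mk v (a 0)) (FinitePlace.mk v (a 1)))]

/-- the counting function and the radical -/
theorem cnt_bounds {q : ℕ} {α : Fin q → Fin 2 → K} {T : Set (Pr K)}
    {S : Finset (Pr K)} (hTS : ∀ v ∈ T, v ∈ S)
    {P : Projectivization K (Fin 2 → K)} (hP : P.rep 1 ≠ 0)
    {A : Fin q → Idl K} (hA : IsP S (pr α) (P.rep 0 / P.rep 1) A) :
    tr A ≤ counting T α P.rep ∧ counting T α P.rep ≤ tr A + ∑ v ∈ S, Real.log (Nv v) := by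
  classical
  obtain ⟨W, hW⟩ : ∃ W : Set (Pr K), W = {v : HeightOneSpectrum (𝓞 K) | v ∉ T ∧
    0 < ∑ i, localHeight v (α i) P.rep} := ⟨_, rfl⟩
  have hout : ∀ v, v ∉ S → (v ∈ W ↔ v ∈ sp A) := by
    intro v hv
    have hl := log_Nv_pos v
    have h1 : ∀ i, localHeight v (α i) P.rep = (A i v : ℝ) * Real.log (Nv v) := by
      intro i
      rw [lh_eq v _ hP]
      exact hA.2 i v hv
    have h2 : ∑ i, localHeight v (α i) P.rep = (∑ i, (A i v : ℝ)) * Real.log (Nv v) := by
      rw [Finset.sum_mul]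
      exact Finset.sum_congr rfl fun i _ => h1 i
    rw [hW]
    unfold sp
    rw [Finset.mem_biUnion]
    constructor
    · rintro ⟨-, h3⟩
      rw [h2] at h3
      have h4 : 0 < ∑ i, (A i v : ℝ) := (pos_iff_pos_of_mul_pos h3).2 hl
      obtain ⟨i, -, hi⟩ := Finset.exists_lt_of_sum_lt (s := Finset.univ)
        (f := fun _ : Fin q => (0 : ℝ)) (g := fun i => (A i v : ℝ)) (by simpa using h4)
      refine ⟨i, Finset.mem_univ _, Finsupp.mem_support_iff.2 ?_⟩
      intro h5
      rw [h5] at hi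
      simp at hi
    · rintro ⟨i, -, hi⟩
      refine ⟨fun h => hv (hTS v h), ?_⟩
      rw [h2]
      refine mul_pos ?_ hl
      have h3 : 1 ≤ A i v := Nat.one_le_iff_ne_zero.2 (Finsupp.mem_support_iff.1 hi)
      have h4 : (1 : ℝ) ≤ (A i v : ℝ) := by exact_mod_cast h3
      have h5 : (A i v : ℝ) ≤ ∑ i, (A i v : ℝ) :=
        Finset.single_le_sum (f := fun i => (A i v : ℝ)) (fun _ _ => Nat.cast_nonneg _)
          (Finset.mem_univ i)
      linarith
  have hdis : ∀ v ∈ sp A, v ∉ S := by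
    intro v hv hvS
    unfold sp at hv
    rw [Finset.mem_biUnion] at hv
    obtain ⟨i, -, hi⟩ := hv
    exact Finsupp.mem_support_iff.1 hi (hA.1 i v hvS)
  have hsub : W ⊆ ((sp A ∪ S : Finset (Pr K)) : Set (Pr K)) := by
    intro v hv
    rw [Finset.mem_coe, Finset.mem_union]
    by_cases h : v ∈ S
    · exact Or.inr h
    · exact Or.inl ((hout v h).1 hv)
  have hfin : W.Finite := (Finset.finite_toSet _).subset hsub
  have hc : counting T α P.rep = ∑ v ∈ hfin.toFinset, Real.log (Nv v) := by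
    unfold counting
    rw [← hW, finsum_mem_eq_finite_toFinset_sum _ hfin]
    rfl
  rw [hc]
  unfold tr
  constructor
  · refine Finset.sum_le_sum_of_subset_of_nonneg ?_ fun v _ _ => (log_Nv_pos v).le
    intro v hv
    rw [Set.Finite.mem_toFinset]
    exact (hout v (hdis v hv)).2 hv
  · have h1 : hfin.toFinset ⊆ sp A ∪ S := by
      intro v hv
      rw [Set.Finite.mem_toFinset] at hv
      exact Finset.mem_coe.1 (hsub hv)
    refine (Finset.sum_le_sum_of_subset_of_nonneg h1 fun v _ _ => (log_Nv_pos v).le).trans ?_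
    have h2 := Finset.sum_union_inter (s₁ := sp A) (s₂ := S) (f := fun v => Real.log (Nv v))
    have h3 : 0 ≤ ∑ v ∈ sp A ∩ S, Real.log (Nv v) :=
      Finset.sum_nonneg fun v _ => (log_Nv_pos v).le
    linarith

theorem off_iff {q : ℕ} {α : Fin q → Fin 2 → K} {P : Projectivization K (Fin 2 → K)} :
    (∀ i, form (α i) P.rep ≠ 0) ↔ Off1 α P := by
  refine forall_congr' fun i => ?_
  rw [form_neg, neg_ne_zero]

theorem hr_nonneg (x : K) : 0 ≤ hr (aff x) := by
  rw [← (pt_rep x).2, ← ht_rep]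
  exact Height.logHeight_nonneg _

end Pool.Agent.Helper41x.Gq
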