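import Pool.Agent.Helper41x.Gq.Br
import Pool.Agent.N906.RS.Asy
import Pool.Agent.Y728.AK.QPts
import Pool.Agent.N340.QP_FINQ

/-!
# The law for `q` points
-/

set_option autoImplicit false

namespace Pool.Agent.Helper41x.Gq

open NumberField IsDedekindDomain Finset Filter Topology Module Pool.Agent.H691R3
open Pool.Agent.W223.AK Pool.Agent.N906.KG
open Pool.Agent.N170.KG (pr al_pr pt pt_rep pt_inj pts pts_count pts_finite ht_rep lv_eq fin_pos
  of_rep off_of rep_inf rep_eq_of)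
open Pool.Agent.TH876.KR (form counting localHeight localHeight_nonneg)
open Pool.Agent.Helper41x.Fr (div_log_atTop log_small)

variable {K : Type} [Field K] [NumberField K]

/-- the points with `N ≤ Y`, `h + c ≥ M N` -/
def Vy (T : Set (Pr K)) {q : ℕ} (α : Fin q → Fin 2 → K) (M c Y : ℝ) :
    Set (Projectivization K (Fin 2 → K)) :=
  {P | (∀ i, form (α i) P.rep ≠ 0) ∧ counting T α P.rep ≤ Y ∧
    M * counting T α P.rep ≤ Height.logHeight P.rep + c}

/-- those of height at most `H` -/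
def Vh (T : Set (Pr K)) {q : ℕ} (α : Fin q → Fin 2 → K) (M c Y H : ℝ) :
    Set (Projectivization K (Fin 2 → K)) :=
  {P | P ∈ Vy T α M c Y ∧ Height.logHeight P.rep ≤ H}

theorem Vh_finite (T : Set (Pr K)) {q : ℕ} (α : Fin q → Fin 2 → K) (M c Y H : ℝ) :
    (Vh T α M c Y H).Finite := (pts_finite K H).subset fun _ hP => hP.2

theorem good_set {q : ℕ} (hq : 1 ≤ q) {T : Set (Pr K)} (hT : T.Finite)
    {α : Fin q → Fin 2 → K} (hA : Al (pr α)) :
    ∃ S : Finset (Pr K), Gd S (pr α) ∧ ∀ v ∈ T, v ∈ S := by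
  classical
  obtain ⟨⟨S₁, hS₁⟩, -⟩ := basq_all K q (pr α) hq hA
  refine ⟨S₁ ∪ hT.toFinset, hS₁ _ subset_union_left, fun v hv => ?_⟩
  exact mem_union_right _ ((Set.Finite.mem_toFinset hT).2 hv)

theorem alq {q : ℕ} (hq : 3 ≤ q) {α : Fin q → Fin 2 → K}
    (hα : ∀ i j, i ≠ j → form (α i) (α j) ≠ 0) : Al (pr α) := by
  refine al_pr (fun i h => ?_) fun i j hij => ?_
  · obtain ⟨j, hj⟩ : ∃ j : Fin q, i ≠ j := by
      by_cases h : i = ⟨0, by omega⟩
      · refine ⟨⟨1, by omega⟩, ?_⟩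
        rw [h]
        intro h'
        have := congrArg Fin.val h'
        simp at this
      · exact ⟨_, h⟩
    apply hα i j hj
    rw [h]
    unfold form
    simp
  · exact hα i j hij

/-- the upper bound for heights up to `η Y` -/
theorem up {q : ℕ} (hq3 : 3 ≤ q) {κ₁ : ℝ} (hκ₁ : κ₁ ≤ 1) (h1 : S_UPU K q κ₁)
    {T : Set (Pr K)} (hT : T.Finite) {α : Fin q → Fin 2 → K}
    (hα : ∀ i j, i ≠ j → form (α i) (α j) ≠ 0) {M η : ℝ} (c : ℝ)
    (hM : 1 / (q : ℝ) < M) (hMη : M < η) (hη : η * (q - κ₁) < 1) {ε : ℝ}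
    (hε : 0 < ε) (hε2 : ε ≤ 1) : ∃ X₀ : ℝ, 1 < X₀ ∧ ∀ Y : ℝ, X₀ ≤ Y →
      ((Vh T α M c Y (η * Y)).ncard : ℝ) ≤ Real.exp ((1 - (q - 2) * M) * Y +
        (1 + ε) * √(8 * q * (q * M - 1) * Y / Real.log Y)) + 1 := by
  classical
  have hM0 : 0 < M := lt_trans (by
    have : (0 : ℝ) < q := by exact_mod_cast (by omega : 0 < q)
    positivity) hM
  have hA := alq hq3 hα
  obtain ⟨S, hG, hTS⟩ := good_set (by omega) hT hA
  obtain ⟨X₀, hX₀, hmid⟩ := mid hq3 hκ₁ h1 hA hG hM hMη hη (abs_nonneg c) hε hε2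
  refine ⟨X₀, hX₀, fun Y hY => ?_⟩
  have hfin := Vh_finite T α M c Y (η * Y)
  rw [Set.ncard_eq_toFinset_card _ hfin]
  set F := hfin.toFinset with hF
  have hsplit := Finset.card_filter_add_card_filter_not (s := F) (fun P => P.rep 1 ≠ 0)
  have hone : (F.filter fun P => ¬ P.rep 1 ≠ 0).card ≤ 1 := by
    rw [Finset.card_le_one]
    intro P hP P' hP'
    rw [Finset.mem_filter, not_not] at hP hP'
    exact rep_inf hP.2 hP'.2
  set φ : Projectivization K (Fin 2 → K) → K := fun P => P.rep 0 / P.rep 1 with hφ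
  have hinj : Set.InjOn φ (F.filter fun P => P.rep 1 ≠ 0) := by
    intro P hP P' hP' h
    rw [Finset.mem_coe, Finset.mem_filter] at hP hP'
    exact rep_eq_of hP.2 hP'.2 h
  have hc := hmid Y hY ((F.filter fun P => P.rep 1 ≠ 0).image φ) fun x hx => by
    obtain ⟨P, hP, rfl⟩ := Finset.mem_image.1 hx
    rw [Finset.mem_filter, hF, Set.Finite.mem_toFinset] at hP
    obtain ⟨⟨⟨f1, f2, f3⟩, f4⟩, hP1⟩ := hP
    have hOf : Of (pr α) (P.rep 0 / P.rep 1) := of_rep hP1 (off_iff.1 f1)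
    obtain ⟨A, hAP⟩ := N954.KG.isP_exists hA S hOf
    obtain ⟨b1, -⟩ := cnt_bounds (S := S) hTS hP1 hAP
    rw [ht_rep] at f3 f4
    have hc1 := abs_nonneg c
    have hc2 := le_abs_self c
    refine ⟨hOf, hr_nonneg _, f4, A, hAP, by linarith, ?_⟩
    have := mul_le_mul_of_nonneg_left b1 hM0.le
    linarith
  rw [Finset.card_image_of_injOn hinj] at hc
  have h3 : (F.card : ℝ) = ((F.filter fun P => P.rep 1 ≠ 0).card : ℝ) +
      ((F.filter fun P => ¬ P.rep 1 ≠ 0).card : ℝ) := by exact_mod_cast hsplit.symm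
  have h4 : ((F.filter fun P => ¬ P.rep 1 ≠ 0).card : ℝ) ≤ 1 := by exact_mod_cast hone
  rw [h3]
  linarith

/-- the lower bound -/
theorem lo {q : ℕ} (hq3 : 3 ≤ q) {T : Set (Pr K)} (hT : T.Finite) {α : Fin q → Fin 2 → K}
    (hα : ∀ i j, i ≠ j → form (α i) (α j) ≠ 0) {M : ℝ} (c : ℝ)
    (hM : 1 / (q : ℝ) < M) (hM2 : M * (q - 1) < 1) {ε : ℝ} (hε : 0 < ε)
    (hε1 : ε < 1) : ∃ X₀ : ℝ, 1 < X₀ ∧ ∀ Y : ℝ, X₀ ≤ Y →
      Real.exp ((1 - (q - 2) * M) * Y + (1 - ε) * √(8 * q * (q * M - 1) * Y / Real.log Y)) ≤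
        ((Vh T α M c Y (M * Y)).ncard : ℝ) := by
  classical
  have hq : (3 : ℝ) ≤ q := by exact_mod_cast hq3
  have hq0 : (0 : ℝ) < q := by linarith
  have hM0 : 0 < M := lt_trans (by positivity) hM
  have hA := alq hq3 hα
  obtain ⟨S, hG, hTS⟩ := good_set (by omega) hT hA
  have hlog : 0 ≤ ∑ v ∈ S, Real.log (Nv v) := sum_nonneg fun v _ => (log_Nv_pos v).le
  obtain ⟨L, hL⟩ : ∃ L : ℝ, L = ∑ v ∈ S, Real.log (Nv v) + |c| / M := ⟨_, rfl⟩
  have hcM : 0 ≤ |c| / M := by positivity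
  have hL0 : 0 ≤ L := by rw [hL]; linarith
  set κ : ℝ := q - 1 / M with hκ
  have hMi : 1 / M < q := by
    rw [div_lt_iff₀ hM0]
    rw [div_lt_iff₀ hq0] at hM
    linarith
  have hMi2 : (q : ℝ) - 1 < 1 / M := by rw [lt_div_iff₀ hM0]; linarith
  have hκ0 : 0 < κ := by rw [hκ]; linarith
  have hκ1 : κ < 1 := by rw [hκ]; linarith
  have hk : 0 < q * M - 1 := by
    rw [div_lt_iff₀ hq0] at hM
    linarith
  have hM1 : M < 1 := by nlinarith
  have hsum : ∑ _l : Fin q, κ / (q : ℝ) = κ := by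
    rw [Finset.sum_const, card_univ, Fintype.card_fin, nsmul_eq_mul, mul_div_cancel₀ _ hq0.ne']
  obtain ⟨X₀, hX₀, hlo⟩ := loj_all K q (pr α) S (fun _ => κ / q) ε
    L (by omega) hA hG (fun _ => by positivity)
    (by rw [hsum]; exact hκ0) (by rw [hsum]; exact hκ1) hε hε1 hL0
  refine ⟨X₀ / M, by rw [lt_div_iff₀ hM0]; linarith, fun Y hY => ?_⟩
  have hY' : X₀ ≤ M * Y := by
    rw [div_le_iff₀ hM0] at hY
    linarith
  have hMY1 : 1 < M * Y := by linarith
  have hY0 : 0 < Y := by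
    by_contra hc
    push Not at hc
    nlinarith
  obtain ⟨F, hF, hcard⟩ := hlo (M * Y) hY'
  have hlM : 0 < Real.log (M * Y) := Real.log_pos hMY1
  have hll : Real.log (M * Y) ≤ Real.log Y := Real.log_le_log (by linarith) (by nlinarith)
  have e0 : ∑ _l : Fin q, √(8 * (κ / q) * (M * Y) / Real.log (M * Y)) =
      √(8 * q * (q * M - 1) * Y / Real.log (M * Y)) := by
    have e1 : κ * M = q * M - 1 := by rw [hκ]; field_simp
    rw [show (8 * q * (q * M - 1) * Y / Real.log (M * Y)) =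
      8 * q * κ * (M * Y / Real.log (M * Y)) by rw [← e1]; ring,
      ← Pool.Agent.N340.QP.sqrt_sum (by omega : 1 ≤ q)]
    exact sum_congr rfl fun _ _ => by rw [mul_div_assoc]
  rw [hsum, e0] at hcard
  have hsub : ((F.image pt : Finset _) : Set _) ⊆ Vh T α M c Y (M * Y) := by
    intro P hP
    obtain ⟨x, hx, rfl⟩ := mem_image.1 (mem_coe.1 hP)
    obtain ⟨o1, k1, -, A, hPA, htr⟩ := hF x hx
    obtain ⟨n1, e1⟩ := pt_rep x
    have l1 : Height.logHeight (pt x).rep = hr (aff x) := by rw [ht_rep, e1]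
    have f1 : Off1 α (pt x) := off_of n1 (by rw [e1]; exact o1)
    have f2 := off_iff.2 f1
    obtain ⟨-, b2⟩ := cnt_bounds (S := S) hTS n1 (by rw [e1]; exact hPA)
    have b3 : tr A + q * L ≤ (q - κ) * hr (aff x) := by
      refine le_trans (add_le_add_left (Pool.Agent.N575.QP.tr_le_rl A) _) ?_
      have h5 : ∑ l, (rl (A l) + L) ≤
          ∑ _l : Fin q, (1 - κ / q) * hr (aff x) := sum_le_sum fun l _ => htr l
      rw [sum_add_distrib, Finset.sum_const, Finset.sum_const, card_univ, Fintype.card_fin, nsmul_eq_mul,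
        nsmul_eq_mul] at h5
      have e4 : (q : ℝ) * ((1 - κ / q) * hr (aff x)) = (q - κ) * hr (aff x) := by
        field_simp
      rw [e4] at h5
      exact h5
    have b4 : counting T α (pt x).rep + |c| / M ≤ 1 / M * hr (aff x) := by
      have e5 : (q : ℝ) - κ = 1 / M := by rw [hκ]; ring
      rw [e5] at b3
      have h9 : (1 : ℝ) * L ≤ q * L :=
        mul_le_mul_of_nonneg_right (by linarith) hL0
      linarith
    have b5 : M * counting T α (pt x).rep + |c| ≤ hr (aff x) := by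
      have := mul_le_mul_of_nonneg_left b4 hM0.le
      rwa [← mul_assoc, mul_one_div_cancel hM0.ne', one_mul, mul_add,
        mul_div_cancel₀ _ hM0.ne'] at this
    have hc1 := abs_nonneg c
    have hc2 := neg_abs_le c
    refine ⟨⟨f2, ?_, by rw [l1]; linarith⟩, by rw [l1]; exact k1⟩
    exact le_of_mul_le_mul_left (by linarith : M * counting T α (pt x).rep ≤ M * Y) hM0
  have h5 := Set.ncard_le_ncard hsub (Vh_finite T α M c Y (M * Y))
  rw [Set.ncard_coe_finset, card_image_of_injective _ pt_inj] at h5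
  refine le_trans ?_ (hcard.trans (by exact_mod_cast h5))
  refine Real.exp_le_exp.2 ?_
  have e4 : (2 - κ) * (M * Y) = (1 - (q - 2) * M) * Y := by
    rw [hκ]
    field_simp
    ring
  rw [e4]
  have e6 : √(8 * q * (q * M - 1) * Y / Real.log Y) ≤
      √(8 * q * (q * M - 1) * Y / Real.log (M * Y)) :=
    Real.sqrt_le_sqrt (div_le_div_of_nonneg_left (by positivity) hlM hll)
  have e7 := mul_le_mul_of_nonneg_left e6 (by linarith : (0 : ℝ) ≤ 1 - ε)
  linarith

/-- the limit -/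
theorem lim_of {q : ℕ} (hq3 : 3 ≤ q) {κ₁ : ℝ} (hκ₁ : κ₁ ≤ 1) (h1 : S_UPU K q κ₁)
    {T : Set (Pr K)} (hT : T.Finite) {α : Fin q → Fin 2 → K}
    (hα : ∀ i j, i ≠ j → form (α i) (α j) ≠ 0) {M η : ℝ} (c : ℝ)
    (hM : 1 / (q : ℝ) < M) (hMη : M < η) (hη : η * (q - κ₁) < 1) (N : ℝ → ℝ) {C : ℝ} (hC : 0 ≤ C)
    (hup : ∀ᶠ Y : ℝ in atTop, N Y ≤ ((Vh T α M c Y (η * Y)).ncard : ℝ) +
      C * Real.exp ((1 - (q - 2) * M) * Y))
    (hlo : ∀ᶠ Y : ℝ in atTop, ((Vh T α M c Y (M * Y)).ncard : ℝ) ≤ N Y) :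
    Tendsto (fun X : ℝ => (Real.log (N (Real.log X)) - (1 - (q - 2) * M) * Real.log X) /
      √(Real.log X / Real.log (Real.log X))) atTop (𝓝 √(8 * q * (q * M - 1))) := by
  have hq : (3 : ℝ) ≤ q := by exact_mod_cast hq3
  have hq0 : (0 : ℝ) < q := by linarith
  have hM0 : 0 < M := lt_trans (by positivity) hM
  have hk : 0 < q * M - 1 := by
    rw [div_lt_iff₀ hq0] at hM
    linarith
  have hMq : M * (q - 1) < 1 := by
    have h3 : M * (q - 1) ≤ η * (q - κ₁) :=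
      mul_le_mul hMη.le (by linarith) (by linarith) (by linarith)
    linarith
  have he0 : 0 ≤ 1 - (q - 2) * M := by
    have : (q - 2) * M ≤ M * (q - 1) := by nlinarith
    linarith
  have h24 : 24 * (q * (q * M - 1) / 3) = 8 * q * (q * M - 1) := by ring
  have h := N906.RS.squeeze (k := q * (q * M - 1) / 3) (e := 1 - (q - 2) * M) (by positivity)
    one_pos N 0 ?_ ?_
  · rw [mul_one, h24] at h
    refine (h.comp Real.tendsto_log_atTop).congr fun X => ?_
    simp only [Function.comp_apply, one_mul]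
  · intro ε hε
    rw [h24]
    obtain ⟨ε', hε'⟩ : ∃ ε' : ℝ, ε' = min ε 1 / 2 := ⟨_, rfl⟩
    have hm0 : 0 < min ε 1 := lt_min hε one_pos
    have hε'0 : 0 < ε' := by rw [hε']; positivity
    have hε'1 : ε' ≤ 1 := by rw [hε']; linarith [min_le_right ε 1]
    have hε'2 : 2 * ε' ≤ ε := by rw [hε']; linarith [min_le_left ε 1]
    obtain ⟨X₀, hX₀, hmid⟩ := up hq3 hκ₁ h1 hT hα c hM hMη hη hε'0 hε'1
    have ev1 : ∀ᶠ Y : ℝ in atTop, 2 + C ≤ ε' * √(8 * q * (q * M - 1) * (Y / Real.log Y)) := by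
      have : Tendsto (fun Y : ℝ => ε' * √(8 * q * (q * M - 1) * (Y / Real.log Y))) atTop atTop :=
        (Real.tendsto_sqrt_atTop.comp
          (div_log_atTop.const_mul_atTop (by positivity))).const_mul_atTop hε'0
      exact this.eventually_ge_atTop _
    obtain ⟨X₁, hX₁⟩ := eventually_atTop.1 (hup.and ev1)
    refine ⟨max X₀ X₁, lt_max_of_lt_left hX₀, fun Y hY => ?_⟩
    obtain ⟨g1, g2⟩ := hX₁ Y ((le_max_right _ _).trans hY)
    have hY1 : X₀ ≤ Y := (le_max_left _ _).trans hY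
    have h2 := hmid Y hY1
    rw [← mul_div_assoc] at g2
    set Sg : ℝ := √(8 * q * (q * M - 1) * Y / Real.log Y) with hS
    have hS0 : 0 ≤ Sg := Real.sqrt_nonneg _
    set E : ℝ := Real.exp ((1 - (q - 2) * M) * Y + (1 + ε') * Sg) with hE
    have h3 : Real.exp ((1 - (q - 2) * M) * Y) ≤ E := by
      refine Real.exp_le_exp.2 ?_
      have : 0 ≤ (1 + ε') * Sg := by positivity
      linarith
    have h3' : 1 ≤ E := by
      refine Real.one_le_exp ?_
      have : 0 ≤ (1 + ε') * Sg := by positivity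
      have : 0 ≤ (1 - (q - 2) * M) * Y := mul_nonneg he0 (by linarith)
      linarith
    have h4 : N Y ≤ (2 + C) * E := by
      have := mul_le_mul_of_nonneg_left h3 hC
      have e : (2 + C) * E = 2 * E + C * E := by ring
      rw [e]
      linarith
    refine h4.trans ?_
    have h5 : 2 + C ≤ Real.exp (ε' * Sg) := by
      have := Real.add_one_le_exp (ε' * Sg)
      linarith
    have h6 : (2 + C) * E ≤ Real.exp (ε' * Sg) * E :=
      mul_le_mul_of_nonneg_right h5 (Real.exp_pos _).le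
    refine h6.trans ?_
    rw [hE, ← Real.exp_add, Real.exp_le_exp]
    have h7 : 2 * ε' * Sg ≤ ε * Sg := mul_le_mul_of_nonneg_right hε'2 hS0
    nlinarith
  · intro ε hε hε1
    rw [h24]
    obtain ⟨X₀, hX₀, hl⟩ := lo hq3 hT hα c hM hMq hε hε1
    obtain ⟨X₁, hX₁⟩ := eventually_atTop.1 hlo
    refine ⟨max X₀ X₁, lt_max_of_lt_left hX₀, fun Y hY => ?_⟩
    rw [add_zero]
    exact (hl Y ((le_max_left _ _).trans hY)).trans (hX₁ Y ((le_max_right _ _).trans hY))

end Pool.Agent.Helper41x.Gq
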