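import Pool.Agent.Helper41x.Gq.One
import Pool.Agent.Helper41x.Fr.Up
import Pool.Agent.N906.QP.Stm
import Pool.Agent.N170.KG_FING

/-!
# The upper bound in the middle range, `q` points over a number field
-/

set_option autoImplicit false

namespace Pool.Agent.Helper41x.Gq

open NumberField IsDedekindDomain Finset Filter Topology Pool.Agent.H691R3 Pool.Agent.W223.AK
open Pool.Agent.N906.KG
open Pool.Agent.N170.KG (pt pt_rep pt_inj pts pts_count ht_rep)
open Pool.Agent.Helper41x.Fr (div_log_atTop log_small)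

variable {K : Type} [Field K] [NumberField K]

/-- the trivial bound -/
theorem triv (K : Type) [Field K] [NumberField K] : ∃ C : ℝ, 0 < C ∧ ∀ (m : ℝ) (F : Finset K),
    0 ≤ m → (∀ x ∈ F, hr (aff x) ≤ m) → (F.card : ℝ) ≤ C * Real.exp (2 * m) := by
  classical
  obtain ⟨C, hC, h⟩ := pts_count K
  refine ⟨C, hC, fun m F hm hF => ?_⟩
  obtain ⟨h1, h2⟩ := h m hm
  have hsub : ((F.image pt : Finset _) : Set _) ⊆ pts K m := by
    intro P hP
    obtain ⟨x, hx, rfl⟩ := mem_image.1 (mem_coe.1 hP)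
    show Height.logHeight (pt x).rep ≤ m
    rw [ht_rep, (pt_rep x).2]
    exact hF x hx
  have h3 := Set.ncard_le_ncard hsub h1
  rw [Set.ncard_coe_finset, card_image_of_injective _ pt_inj] at h3
  exact le_trans (by exact_mod_cast h3) h2

theorem mid {q : ℕ} (hq3 : 3 ≤ q) {κ₁ : ℝ} (hκ₁ : κ₁ ≤ 1) (h1 : S_UPU K q κ₁) {α : Fin q → K × K}
    {S : Finset (Pr K)} (hα : Al α) (hS : Gd S α) {M η c : ℝ}
    (hM : 1 / (q : ℝ) < M) (hMη : M < η) (hη : η * (q - κ₁) < 1) (hc : 0 ≤ c) {ε : ℝ}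
    (hε : 0 < ε) (hε2 : ε ≤ 1) : ∃ X₀ : ℝ, 1 < X₀ ∧ ∀ Y : ℝ, X₀ ≤ Y →
      ∀ F : Finset K, (∀ x ∈ F, Of α x ∧ 0 ≤ hr (aff x) ∧ hr (aff x) ≤ η * Y ∧
        ∃ P, IsP S α x P ∧ tr P ≤ Y + c ∧ M * tr P ≤ hr (aff x) + c) →
      (F.card : ℝ) ≤ Real.exp ((1 - (q - 2) * M) * Y +
        (1 + ε) * √(8 * q * (q * M - 1) * Y / Real.log Y)) := by
  classical
  have hq : (3 : ℝ) ≤ q := by exact_mod_cast hq3
  have hq0 : (0 : ℝ) < q := by linarith
  have hM0 : 0 < M := lt_trans (by positivity) hM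
  have hη0 : 0 < η := by linarith
  have hk : 0 < q * M - 1 := by
    rw [div_lt_iff₀ hq0] at hM
    linarith
  obtain ⟨C, hC, htriv⟩ := triv K
  set ε₁ : ℝ := ε / 4 with hε₁
  have hε₁0 : 0 < ε₁ := by positivity
  have hε₁1 : ε₁ ≤ 1 / 4 := by rw [hε₁]; linarith
  set δ : ℝ := min ((q * M - 1) / (2 * M)) (1 / η - (q - κ₁)) with hδ
  have hδ0 : 0 < δ := by
    refine lt_min (by positivity) ?_
    rw [sub_pos, lt_div_iff₀ hη0]
    linarith
  obtain ⟨X₀, hX₀, hw⟩ := h1 α S δ ε₁ hα hS hδ0 hε₁0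
  have h2q : (0 : ℝ) < 2 * q := by positivity
  have ev1 : ∀ᶠ Y : ℝ in atTop, X₀ ≤ Y / (2 * q) :=
    (tendsto_id.atTop_div_const h2q).eventually_ge_atTop X₀
  have ev2 : ∀ᶠ Y : ℝ in atTop, q * (1 + c) ≤ (q * M - 1) / (2 * M) * (Y / (2 * q)) :=
    ((tendsto_id.atTop_div_const h2q).const_mul_atTop (by positivity)).eventually_ge_atTop _
  have ev3 : ∀ᶠ Y : ℝ in atTop, 1 ≤ Real.log (Y / (2 * q)) :=
    (Real.tendsto_log_atTop.comp (tendsto_id.atTop_div_const h2q)).eventually_ge_atTop 1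
  have ev4 : ∀ᶠ Y : ℝ in atTop, (8 * (q : ℝ) ^ 2) ^ 2 ≤ 8 * q * (q * M - 1) * (Y / Real.log Y) :=
    (div_log_atTop.const_mul_atTop (by positivity)).eventually_ge_atTop _
  have ev5 : ∀ᶠ Y : ℝ in atTop, Real.log Y ≤ (1 + ε₁) ^ 2 * Real.log (Y / (2 * q)) := by
    have h2 : ∀ᶠ Y : ℝ in atTop, (1 + ε₁) ^ 2 * Real.log (2 * q) / ((1 + ε₁) ^ 2 - 1) ≤ Real.log Y :=
      Real.tendsto_log_atTop.eventually_ge_atTop _
    filter_upwards [h2, eventually_gt_atTop (0 : ℝ)] with Y g1 g2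
    have h3 : 0 < (1 + ε₁) ^ 2 - 1 := by nlinarith
    rw [div_le_iff₀ h3] at g1
    rw [Real.log_div g2.ne' h2q.ne']
    linarith
  have ev6 := log_small (c := ε₁ * √(8 * q * (q * M - 1))) (by positivity)
    (q * (1 + c) + Real.log (1 + C))
  obtain ⟨X₁, hX₁⟩ := eventually_atTop.1 (ev1.and (ev2.and (ev3.and (ev4.and (ev5.and ev6)))))
  refine ⟨max X₁ 2, lt_max_of_lt_right (by norm_num), fun Y hY F hF => ?_⟩
  obtain ⟨g1, g2, g3, g4, g5, g6⟩ := hX₁ Y ((le_max_left _ _).trans hY)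
  have hY2 : 2 ≤ Y := (le_max_right _ _).trans hY
  have hY0 : 0 < Y := by linarith
  have hlY : 0 < Real.log Y := Real.log_pos (by linarith)
  have hYq0 : 0 < Y / (2 * q) := by positivity
  set Sg : ℝ := √(8 * q * (q * M - 1) * Y / Real.log Y) with hSg
  have hS0 : 0 ≤ Sg := Real.sqrt_nonneg _
  have hSe : √(8 * q * (q * M - 1)) * √(Y / Real.log Y) = Sg := by
    rw [← Real.sqrt_mul (by positivity), hSg]
    congr 1
    ring
  rw [mul_assoc, hSe] at g6
  set B : ℝ := Real.exp ((1 - (q - 2) * M) * Y + q * (1 + c) + (1 + 3 * ε₁) * Sg) with hB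
  have hB0 : 0 < B := Real.exp_pos _
  -- the small points
  have he1 : 1 / (q : ℝ) < 1 - (q - 2) * M := by
    have h2 : (q - 1) * M < 1 := by
      have h3 : (q - 1) * M ≤ (q - κ₁) * η :=
        mul_le_mul (by linarith) hMη.le hM0.le (by linarith)
      linarith
    have h4 : 1 - (q - 2) * M = 1 - (q - 1) * M + M := by ring
    rw [h4]
    linarith
  set m₀ : ℝ := (1 - (q - 2) * M) * Y / 2 with hm₀
  have hm₀4 : Y / (2 * q) ≤ m₀ := by
    rw [hm₀]
    have : Y / (2 * q) = 1 / (q : ℝ) * Y / 2 := by field_simp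
    rw [this]
    have := mul_le_mul_of_nonneg_right he1.le hY0.le
    linarith
  have c1 : ((F.filter fun x => hr (aff x) ≤ m₀).card : ℝ) ≤ C * B := by
    refine (htriv m₀ _ (by linarith) fun t ht => ?_).trans ?_
    · rw [Finset.mem_filter] at ht
      exact ht.2
    · refine mul_le_mul_of_nonneg_left ?_ hC.le
      rw [hB, Real.exp_le_exp, hm₀]
      have h2 : 0 ≤ (1 + 3 * ε₁) * Sg := by positivity
      have h3 : 0 ≤ q * (1 + c) := by positivity
      linarith
  -- the windows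
  set n : ℕ := ⌊Y⌋₊ + 1 with hn
  have c2 : ∀ i ∈ Finset.range n, ((F.filter fun x => m₀ < hr (aff x) ∧
      ⌊η * Y - hr (aff x)⌋₊ = i).card : ℝ) ≤ B := by
    intro i _
    rcases Finset.eq_empty_or_nonempty (F.filter fun x => m₀ < hr (aff x) ∧
      ⌊η * Y - hr (aff x)⌋₊ = i) with he | ⟨t₀, ht₀⟩
    · rw [he, Finset.card_empty, Nat.cast_zero]
      exact hB0.le
    have key : ∀ x ∈ F, m₀ < hr (aff x) → ⌊η * Y - hr (aff x)⌋₊ = i →
        (η * Y - i) - 1 < hr (aff x) ∧ hr (aff x) ≤ η * Y - i := by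
      intro t ht h2 h3
      obtain ⟨a1, a2, a3, a4⟩ := hF t ht
      have h4 : (0 : ℝ) ≤ η * Y - hr (aff t) := by linarith
      have h5 := Nat.floor_le h4
      have h6 := Nat.lt_floor_add_one (η * Y - hr (aff t))
      rw [h3] at h5 h6
      constructor <;> linarith
    set m : ℝ := η * Y - i with hm
    have hmlo : m₀ ≤ m := by
      rw [Finset.mem_filter] at ht₀
      exact ht₀.2.1.le.trans (key t₀ ht₀.1 ht₀.2.1 ht₀.2.2).2
    have hm4 : Y / (2 * q) ≤ m := hm₀4.trans hmlo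
    have hmhi : m ≤ η * Y := by
      rw [hm]
      linarith [(Nat.cast_nonneg i : (0 : ℝ) ≤ i)]
    obtain ⟨o1, o2, o3⟩ := one (G := q * (m - 1) - min (Y + c) ((m + c) / M)) hq hM hMη hκ₁ hη
      hc hδ0 (min_le_left _ _) (min_le_right _ _) hε₁0 (by linarith) hm4 hmhi g2 g3 hY0 g4 rfl
    have h2 := hw m _ (F.filter fun x => m₀ < hr (aff x) ∧
      ⌊η * Y - hr (aff x)⌋₊ = i) (g1.trans hm4) o1 o2 fun t ht => by
        rw [Finset.mem_filter] at ht
        obtain ⟨a1, -, a2, P, a3, a4, a5⟩ := hF t ht.1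
        obtain ⟨k1, k2⟩ := key t ht.1 ht.2.1 ht.2.2
        refine ⟨a1, k1, k2, P, a3, ?_⟩
        have h4 : tr P ≤ (m + c) / M := by
          rw [le_div_iff₀ hM0]
          linarith
        have h5 := le_min a4 h4
        have h6 : q * (m - 1) ≤ q * hr (aff t) := mul_le_mul_of_nonneg_left k1.le hq0.le
        linarith
    refine h2.trans ?_
    rw [hB, Real.exp_le_exp]
    refine o3.trans ?_
    have hlm : 1 ≤ Real.log m := g3.trans (Real.log_le_log hYq0 hm4)
    have h3 : √(8 * q * (q * M - 1) * Y / Real.log m) ≤ (1 + ε₁) * Sg := by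
      have h4 : 8 * q * (q * M - 1) * Y / Real.log m ≤
          (1 + ε₁) ^ 2 * (8 * q * (q * M - 1) * Y / Real.log Y) := by
        rw [div_le_iff₀ (by linarith)]
        have h5 : Real.log Y ≤ (1 + ε₁) ^ 2 * Real.log m := g5.trans
          (mul_le_mul_of_nonneg_left (Real.log_le_log hYq0 hm4) (by positivity))
        have h6 : (1 + ε₁) ^ 2 * (8 * q * (q * M - 1) * Y / Real.log Y) * Real.log m =
            8 * q * (q * M - 1) * Y * (((1 + ε₁) ^ 2 * Real.log m) / Real.log Y) := by ring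
        rw [h6]
        have h7 : 1 ≤ ((1 + ε₁) ^ 2 * Real.log m) / Real.log Y := by
          rw [le_div_iff₀ hlY]
          linarith
        exact le_mul_of_one_le_right (by positivity) h7
      refine (Real.sqrt_le_sqrt h4).trans ?_
      rw [Real.sqrt_mul (sq_nonneg _), Real.sqrt_sq (by linarith)]
    have h4 := mul_le_mul_of_nonneg_left h3 (by linarith : (0 : ℝ) ≤ 1 + ε₁)
    have h5 : (1 + ε₁) * ((1 + ε₁) * Sg) ≤ (1 + 3 * ε₁) * Sg := by
      rw [← mul_assoc]
      refine mul_le_mul_of_nonneg_right ?_ hS0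
      nlinarith
    linarith
  -- the sum
  have hcov : F ⊆ (F.filter fun x => hr (aff x) ≤ m₀) ∪
      (Finset.range n).biUnion fun i => F.filter fun x => m₀ < hr (aff x) ∧
      ⌊η * Y - hr (aff x)⌋₊ = i := by
    intro t ht
    rw [Finset.mem_union, Finset.mem_filter, Finset.mem_biUnion]
    rcases le_or_gt (hr (aff t)) m₀ with h2 | h2
    · exact Or.inl ⟨ht, h2⟩
    · right
      refine ⟨⌊η * Y - hr (aff t)⌋₊, ?_, ?_⟩
      · rw [Finset.mem_range, hn]
        refine Nat.lt_succ_of_le (Nat.floor_le_floor ?_)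
        have h3 : 0 ≤ hr (aff t) := (hF t ht).2.1
        have hη1 : η < 1 := by
          have h1 : 2 ≤ (q : ℝ) - κ₁ := by linarith
          nlinarith
        nlinarith
      · rw [Finset.mem_filter]
        exact ⟨ht, h2, rfl⟩
  have hcard : (F.card : ℝ) ≤ C * B + n * B := by
    have h2 := (Finset.card_le_card hcov).trans (Finset.card_union_le _ _)
    have h3 : (((Finset.range n).biUnion fun i => F.filter fun x => m₀ < hr (aff x) ∧
      ⌊η * Y - hr (aff x)⌋₊ = i).card : ℝ) ≤ n * B := by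
      have h5 := Finset.card_biUnion_le (s := Finset.range n) (t := fun i => F.filter fun x =>
        m₀ < hr (aff x) ∧ ⌊η * Y - hr (aff x)⌋₊ = i)
      have h6 : (((Finset.range n).biUnion fun i => F.filter fun x => m₀ < hr (aff x) ∧
          ⌊η * Y - hr (aff x)⌋₊ = i).card : ℝ) ≤ ∑ i ∈ Finset.range n,
          ((F.filter fun x => m₀ < hr (aff x) ∧
            ⌊η * Y - hr (aff x)⌋₊ = i).card : ℝ) := by exact_mod_cast h5
      refine h6.trans ((Finset.sum_le_sum c2).trans ?_)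
      rw [Finset.sum_const, Finset.card_range, nsmul_eq_mul]
    have h4 : (F.card : ℝ) ≤ ((F.filter fun x => hr (aff x) ≤ m₀).card : ℝ) +
        ((Finset.range n).biUnion fun i => F.filter fun x => m₀ < hr (aff x) ∧
      ⌊η * Y - hr (aff x)⌋₊ = i).card := by exact_mod_cast h2
    linarith
  have hn2 : (n : ℝ) ≤ Y + 2 := by
    have := Nat.floor_le hY0.le
    rw [hn]
    push_cast
    linarith
  have hfin : (F.card : ℝ) ≤ Real.exp (Real.log (Y + 2) + Real.log (1 + C)) * B := by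
    rw [Real.exp_add, Real.exp_log (by linarith), Real.exp_log (by linarith)]
    have h2 : C + n ≤ (Y + 2) * (1 + C) := by nlinarith
    have h3 := mul_le_mul_of_nonneg_right h2 hB0.le
    linarith
  refine hfin.trans ?_
  rw [hB, ← Real.exp_add, Real.exp_le_exp]
  have h9 : (1 + ε) * Sg = (1 + 3 * ε₁) * Sg + ε₁ * Sg := by rw [hε₁]; ring
  rw [h9]
  linarith

end Pool.Agent.Helper41x.Gq
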