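import Mathlib

/-!
# One window, `q` points
-/

set_option autoImplicit false

namespace Pool.Agent.Helper41x.Gq

/-- one window -/
theorem one {q M η κ₁ c Y m : ℝ} (hq : 3 ≤ q) (hM : 1 / q < M) (hMη : M < η) (hκ1 : κ₁ ≤ 1)
    (hη : η * (q - κ₁) < 1) (hc : 0 ≤ c) {δ ε₁ : ℝ}
    (hδ0 : 0 < δ) (hδ1 : δ ≤ (q * M - 1) / (2 * M)) (hδ2 : δ ≤ 1 / η - (q - κ₁)) (hε1 : 0 < ε₁)
    (hε2 : ε₁ ≤ 1) (hm : Y / (2 * q) ≤ m) (hm2 : m ≤ η * Y)
    (hY1 : q * (1 + c) ≤ (q * M - 1) / (2 * M) * (Y / (2 * q)))
    (hY2 : 1 ≤ Real.log (Y / (2 * q))) (hY0 : 0 < Y)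
    (hY3 : (8 * q ^ 2) ^ 2 ≤ 8 * q * (q * M - 1) * (Y / Real.log Y))
    {G : ℝ} (hG : G = q * (m - 1) - min (Y + c) ((m + c) / M)) :
    δ * m ≤ G ∧ G ≤ (κ₁ - δ) * m ∧
    2 * m - G + (1 + ε₁) * √(8 * q * G / Real.log m) ≤
      (1 - (q - 2) * M) * Y + q * (1 + c) +
        (1 + ε₁) * √(8 * q * (q * M - 1) * Y / Real.log m) := by
  have hq0 : 0 < q := by linarith
  have hM0 : 0 < M := lt_trans (by positivity) hM
  have hη0 : 0 < η := by linarith
  have hMi : 1 / M < q := by
    rw [div_lt_iff₀ hM0]
    rw [div_lt_iff₀ hq0] at hM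
    linarith
  have hk : 0 < q * M - 1 := by
    rw [div_lt_iff₀ hq0] at hM
    linarith
  have hY40 : 0 < Y / (2 * q) := by positivity
  have hm0 : 0 < m := by linarith
  set T : ℝ := min (Y + c) ((m + c) / M) with hT
  have hT1 : T ≤ Y + c := min_le_left _ _
  have hT2 : T ≤ (m + c) / M := min_le_right _ _
  have hT2' : T ≤ 1 / M * m + q * c := by
    have e : (m + c) / M = 1 / M * m + 1 / M * c := by field_simp
    have := mul_le_mul_of_nonneg_right hMi.le hc
    linarith
  have hkM : (q * M - 1) / (2 * M) = (q - 1 / M) / 2 := by field_simp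
  have hL1 : 1 ≤ Real.log m := hY2.trans (Real.log_le_log hY40 hm)
  have hη1 : η < 1 := by
    have h1 : 2 ≤ q - κ₁ := by linarith
    nlinarith
  have hmY : m ≤ Y := by nlinarith
  have hL2 : Real.log m ≤ Real.log Y := Real.log_le_log hm0 hmY
  have hL0 : 0 < Real.log m := by linarith
  have hLY : 0 < Real.log Y := by linarith
  refine ⟨?_, ?_, ?_⟩
  · have h1 : q * (1 + c) ≤ (q * M - 1) / (2 * M) * m :=
      hY1.trans (mul_le_mul_of_nonneg_left hm (by positivity))
    have h2 : δ * m ≤ (q * M - 1) / (2 * M) * m := mul_le_mul_of_nonneg_right hδ1 hm0.le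
    rw [hkM] at h1 h2
    have e : (q - 1 / M) / 2 * m = q * m / 2 - 1 / M * m / 2 := by ring
    rw [e] at h1 h2
    have e2 : q * (m - 1) = q * m - q := by ring
    have e3 : q * (1 + c) = q + q * c := by ring
    rw [hG, e2]
    linarith
  · have h1 : 1 / η * m ≤ T := by
      refine le_min ?_ ?_
      · rw [one_div, inv_mul_le_iff₀ hη0]
        have : 0 ≤ η * c := by positivity
        linarith
      · have : 1 / η * m ≤ 1 / M * m :=
          mul_le_mul_of_nonneg_right (one_div_le_one_div_of_le hM0 hMη.le) hm0.le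
        refine this.trans ?_
        rw [div_mul_eq_mul_div, one_mul]
        exact div_le_div_of_nonneg_right (by linarith) hM0.le
    have h2 : δ * m ≤ (1 / η - (q - κ₁)) * m := mul_le_mul_of_nonneg_right hδ2 hm0.le
    have e : (1 / η - (q - κ₁)) * m = 1 / η * m - q * m + κ₁ * m := by ring
    have e2 : (κ₁ - δ) * m = κ₁ * m - δ * m := by ring
    rw [hG, e2]
    linarith
  · rcases le_or_gt m (M * Y) with hcc | hcc
    · have h0 : 1 / M * m ≤ Y := by
        rw [one_div, inv_mul_le_iff₀ hM0]
        exact hcc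
      have h1 : 1 / M * m ≤ T := by
        refine le_min (by linarith) ?_
        rw [div_mul_eq_mul_div, one_mul]
        exact div_le_div_of_nonneg_right (by linarith) hM0.le
      have h2 : G ≤ (q * M - 1) * Y := by
        have h3 : (q - 1 / M) * m ≤ (q - 1 / M) * (M * Y) :=
          mul_le_mul_of_nonneg_left hcc (by linarith)
        have h4 : (q - 1 / M) * (M * Y) = (q * M - 1) * Y := by field_simp
        have e : (q - 1 / M) * m = q * m - 1 / M * m := by ring
        have e2 : q * (m - 1) = q * m - q := by ring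
        rw [hG, e2]
        linarith
      have h5 : √(8 * q * G / Real.log m) ≤ √(8 * q * (q * M - 1) * Y / Real.log m) := by
        refine Real.sqrt_le_sqrt (div_le_div_of_nonneg_right ?_ hL0.le)
        have := mul_le_mul_of_nonneg_left h2 (by positivity : 0 ≤ 8 * q)
        linarith
      have h6 : 2 * m - G ≤ (1 - (q - 2) * M) * Y + q * (1 + c) := by
        have h7 : q - 2 ≤ 1 / M := by
          rw [le_div_iff₀ hM0]
          have h8 : (q - 2) * M ≤ (q - κ₁) * η :=
            mul_le_mul (by linarith) hMη.le hM0.le (by linarith)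
          linarith
        have h8 : (1 / M - (q - 2)) * m ≤ (1 / M - (q - 2)) * (M * Y) :=
          mul_le_mul_of_nonneg_left hcc (by linarith)
        have h9 : (1 / M - (q - 2)) * (M * Y) = (1 - (q - 2) * M) * Y := by field_simp
        have e : (1 / M - (q - 2)) * m = 1 / M * m - q * m + 2 * m := by ring
        have e2 : q * (m - 1) = q * m - q := by ring
        rw [hG, e2]
        linarith
      have h7 := mul_le_mul_of_nonneg_left h5 (by linarith : (0 : ℝ) ≤ 1 + ε₁)
      linarith
    · have hTY : Y ≤ T := by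
        refine le_min (by linarith) ?_
        rw [le_div_iff₀ hM0]
        linarith
      obtain ⟨s, hs⟩ : ∃ s : ℝ, s = m - M * Y := ⟨_, rfl⟩
      have hs0 : 0 < s := by linarith
      have hG2 : G ≤ (q * M - 1) * Y + q * s := by
        rw [hG, hs]
        have e : q * (m - 1) = q * m - q := by ring
        have e2 : (q * M - 1) * Y + q * (m - M * Y) = q * m - Y := by ring
        rw [e, e2]
        linarith
      have hG3 : 2 * m - G ≤ (1 - (q - 2) * M) * Y + q * (1 + c) - s := by
        have e : q * (m - 1) = q * m - q := by ring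
        have e1 : m = M * Y + s := by rw [hs]; ring
        have e2 : 2 * m - (q * m - q) = -((q - 2) * (M * Y)) - (q - 2) * s + q := by
          rw [e1]; ring
        have e3 : 1 * s ≤ (q - 2) * s := mul_le_mul_of_nonneg_right (by linarith) hs0.le
        have e4 : 1 * c ≤ q * c := mul_le_mul_of_nonneg_right (by linarith) hc
        have e5 : (1 - (q - 2) * M) * Y = Y - (q - 2) * (M * Y) := by ring
        have e6 : q * (1 + c) = q + q * c := by ring
        rw [hG, e, e5, e6]
        linarith
      set A : ℝ := 8 * q * (q * M - 1) * Y / Real.log m with hA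
      have hA1 : (8 * q ^ 2) ^ 2 ≤ A := by
        refine hY3.trans ?_
        rw [hA, mul_div_assoc]
        exact mul_le_mul_of_nonneg_left (div_le_div_of_nonneg_left hY0.le hL0 hL2) (by positivity)
      have hA2 : 8 * q ^ 2 ≤ √A := Real.le_sqrt_of_sq_le hA1
      have hA0 : 0 ≤ A := (sq_nonneg _).trans hA1
      have h5 : √(8 * q * G / Real.log m) ≤ √A + s / (1 + ε₁) := by
        have h6 : 8 * q * G / Real.log m ≤ A + 8 * q ^ 2 * s := by
          have h7 : 8 * q * G / Real.log m ≤
              (8 * q * (q * M - 1) * Y + 8 * q ^ 2 * s) / Real.log m := by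
            refine div_le_div_of_nonneg_right ?_ hL0.le
            have := mul_le_mul_of_nonneg_left hG2 (by positivity : 0 ≤ 8 * q)
            have e : 8 * q * ((q * M - 1) * Y + q * s) =
                8 * q * (q * M - 1) * Y + 8 * q ^ 2 * s := by ring
            linarith
          rw [add_div] at h7
          have h8 : 8 * q ^ 2 * s / Real.log m ≤ 8 * q ^ 2 * s := div_le_self (by positivity) hL1
          linarith
        refine Real.sqrt_le_iff.2 ⟨by positivity, h6.trans ?_⟩
        have h9 : √A ^ 2 = A := Real.sq_sqrt hA0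
        have h10 : s / 2 ≤ s / (1 + ε₁) := div_le_div_of_nonneg_left hs0.le (by linarith)
          (by linarith)
        have h11 : 0 ≤ (s / (1 + ε₁)) ^ 2 := sq_nonneg _
        have h12 : 8 * q ^ 2 * s ≤ 2 * √A * (s / (1 + ε₁)) := by
          calc 8 * q ^ 2 * s = 2 * (8 * q ^ 2) * (s / 2) := by ring
            _ ≤ 2 * √A * (s / (1 + ε₁)) := by
              apply mul_le_mul _ h10 (by positivity) (by positivity)
              linarith
        nlinarith
      have h6 : (1 + ε₁) * √(8 * q * G / Real.log m) ≤ (1 + ε₁) * √A + s := by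
        have := mul_le_mul_of_nonneg_left h5 (by linarith : (0 : ℝ) ≤ 1 + ε₁)
        rw [mul_add, mul_div_cancel₀ _ (by linarith : (1 + ε₁) ≠ 0)] at this
        exact this
      linarith

end Pool.Agent.Helper41x.Gq
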